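import Mathlib

/-!
# Ridge numbers of flag weak pseudomanifolds; the case r = 2 of the middle face number question
-/

open Finset

namespace Pool.Agent.Results.MP_a04191_co.RidgeNumbers

/-- `M` is (the set of faces, the empty face included, of) a finite simplicial complex whose set of
vertices is `V`. -/
structure IsComplex {V : Type} [DecidableEq V] (M : Finset (Finset V)) : Prop where
  empty_mem : ∅ ∈ M
  vertex_mem : ∀ v : V, {v} ∈ M
  down : ∀ s ∈ M, ∀ t, t ⊆ s → t ∈ M

/-- Flag: every vertex set whose members are pairwise joined by edges spans a face. -/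
def IsFlag {V : Type} [DecidableEq V] (M : Finset (Finset V)) : Prop :=
  ∀ s : Finset V, (∀ a ∈ s, ∀ b ∈ s, a ≠ b → {a, b} ∈ M) → s ∈ M

/-- Weak `(d-1)`-pseudomanifold: all maximal faces have `d` vertices (dimension `d-1`), and each
face with `d-1` vertices (dimension `d-2`) lies in exactly two faces with `d` vertices. -/
structure IsWeakPseudomanifold {V : Type} [DecidableEq V] (d : ℕ) (M : Finset (Finset V)) :
    Prop where
  pure : ∀ s ∈ M, (∀ t ∈ M, s ⊆ t → t = s) → s.card = d
  ridge : ∀ s ∈ M, s.card = d - 1 → (M.filter (fun t => s ⊆ t ∧ t.card = d)).card = 2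

/-- `f_i(M)`: the number of faces with `i+1` vertices. -/
def faceNumber {V : Type} [DecidableEq V] (M : Finset (Finset V)) (i : ℕ) : ℕ :=
  (M.filter (fun s => s.card = i + 1)).card

section Core

variable {V : Type} [Fintype V] [DecidableEq V]

/-- ordered adjacent pairs -/
noncomputable def prs (H : SimpleGraph V) : Finset (V × V) := by
  classical exact univ.filter (fun p : V × V => H.Adj p.1 p.2)

lemma mem_prs (H : SimpleGraph V) (p : V × V) : p ∈ prs H ↔ H.Adj p.1 p.2 := by
  classical
  simp [prs]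

lemma card_prs (H : SimpleGraph V) [DecidableRel H.Adj] :
    (prs H).card = 2 * H.edgeFinset.card := by
  classical
  rw [← H.sum_degrees_eq_twice_card_edges]
  have h1 : prs H = (univ : Finset V).biUnion
      (fun v => (H.neighborFinset v).image (fun w => (v, w))) := by
    ext ⟨a, b⟩
    rw [mem_prs]
    simp only [mem_biUnion, mem_univ, true_and, mem_image, SimpleGraph.mem_neighborFinset]
    constructor
    · intro h
      exact ⟨a, b, h, rfl⟩
    · rintro ⟨v, w, h, e⟩
      simp only [Prod.mk.injEq] at e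
      obtain ⟨rfl, rfl⟩ := e
      exact h
  rw [h1, card_biUnion]
  · refine sum_congr rfl fun v _ => ?_
    rw [card_image_of_injective _ (fun w w' e => by simpa using e)]
    exact H.card_neighborFinset_eq_degree v
  · intro x _ y _ hxy
    rw [Function.onFun, disjoint_left]
    rintro ⟨a, b⟩ h1 h2
    simp only [mem_image, Prod.mk.injEq] at h1 h2
    obtain ⟨_, _, e1, _⟩ := h1
    obtain ⟨_, _, e2, _⟩ := h2
    exact hxy (e1.trans e2.symm)

noncomputable def cn (H : SimpleGraph V) (a b : V) : Finset V := by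
  classical exact univ.filter (fun c => H.Adj a c ∧ H.Adj b c)

lemma mem_cn (H : SimpleGraph V) (a b c : V) : c ∈ cn H a b ↔ H.Adj a c ∧ H.Adj b c := by
  classical
  simp [cn]

lemma card_prs_le (H K : SimpleGraph V) (hK : K ≤ H) (hfree : K.CliqueFree 3)
    (hex : ∀ a b, H.Adj a b → ∃ c, H.Adj a c ∧ H.Adj b c)
    (hcn : ∀ a b, H.Adj a b → (cn H a b).card ≤ 2) :
    (prs H).card ≤ 5 * ((prs H).card - (prs K).card) := by
  classical
  have hsub : prs K ⊆ prs H := fun p hp => by
    rw [mem_prs] at hp ⊢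
    exact hK hp
  set R := prs H \ prs K with hR
  have hRc : R.card = (prs H).card - (prs K).card := card_sdiff_of_subset hsub
  have hcover : prs H ⊆ R ∪ (R.biUnion (fun q => (cn H q.1 q.2).image (fun a => (a, q.1))) ∪
      R.biUnion (fun q => (cn H q.1 q.2).image (fun b => (q.1, b)))) := by
    rintro ⟨a, b⟩ hab
    rw [mem_prs] at hab
    obtain ⟨c, hac, hbc⟩ := hex a b hab
    simp only at hab
    by_cases k1 : K.Adj a b
    · by_cases k2 : K.Adj b c
      · have k3 : ¬ K.Adj a c := by
          intro k3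
          exact hfree {a, b, c} (SimpleGraph.is3Clique_triple_iff.2 ⟨k1, k3, k2⟩)
        refine mem_union_right _ (mem_union_right _ (mem_biUnion.2 ⟨(a, c), ?_, ?_⟩))
        · rw [hR, mem_sdiff, mem_prs, mem_prs]
          exact ⟨hac, k3⟩
        · refine mem_image.2 ⟨b, ?_, rfl⟩
          rw [mem_cn]
          exact ⟨hab, hbc.symm⟩
      · refine mem_union_right _ (mem_union_left _ (mem_biUnion.2 ⟨(b, c), ?_, ?_⟩))
        · rw [hR, mem_sdiff, mem_prs, mem_prs]
          exact ⟨hbc, k2⟩
        · refine mem_image.2 ⟨a, ?_, rfl⟩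
          rw [mem_cn]
          exact ⟨hab.symm, hac.symm⟩
    · refine mem_union_left _ ?_
      rw [hR, mem_sdiff, mem_prs, mem_prs]
      exact ⟨hab, k1⟩
  have hb1 : (R.biUnion (fun q => (cn H q.1 q.2).image (fun a => (a, q.1)))).card
      ≤ R.card * 2 := by
    refine card_biUnion_le_card_mul _ _ _ fun q hq => ?_
    rw [hR, mem_sdiff, mem_prs] at hq
    exact card_image_le.trans (hcn _ _ hq.1)
  have hb2 : (R.biUnion (fun q => (cn H q.1 q.2).image (fun b => (q.1, b)))).card
      ≤ R.card * 2 := by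
    refine card_biUnion_le_card_mul _ _ _ fun q hq => ?_
    rw [hR, mem_sdiff, mem_prs] at hq
    exact card_image_le.trans (hcn _ _ hq.1)
  have := card_le_card hcover
  have h3 := card_union_le R (R.biUnion (fun q => (cn H q.1 q.2).image (fun a => (a, q.1))) ∪
      R.biUnion (fun q => (cn H q.1 q.2).image (fun b => (q.1, b))))
  have h4 := card_union_le (R.biUnion (fun q => (cn H q.1 q.2).image (fun a => (a, q.1))))
      (R.biUnion (fun q => (cn H q.1 q.2).image (fun b => (q.1, b))))
  rw [← hRc]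
  omega

lemma card_triangles_le (H : SimpleGraph V) [DecidableRel H.Adj]
    (hcn : ∀ a b, H.Adj a b → (cn H a b).card ≤ 2) :
    (H.cliqueFinset 3).card ≤ Fintype.card V ^ 2 * 2 := by
  classical
  have h1 : H.cliqueFinset 3 ⊆ (prs H).biUnion
      (fun q => (cn H q.1 q.2).image (fun c => ({q.1, q.2, c} : Finset V))) := by
    intro t ht
    rw [SimpleGraph.mem_cliqueFinset_iff] at ht
    obtain ⟨a, b, c, hab, hac, hbc, rfl⟩ := SimpleGraph.is3Clique_iff.1 ht
    refine mem_biUnion.2 ⟨(a, b), ?_, mem_image.2 ⟨c, ?_, rfl⟩⟩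
    · rw [mem_prs]; exact hab
    · rw [mem_cn]; exact ⟨hac, hbc⟩
  have h2 : (prs H).card ≤ Fintype.card V ^ 2 := by
    refine (card_le_univ _).trans ?_
    rw [Fintype.card_prod, sq]
  refine (card_le_card h1).trans ((card_biUnion_le_card_mul _ _ 2 fun q hq => ?_).trans
    (Nat.mul_le_mul_right _ h2))
  rw [mem_prs] at hq
  exact card_image_le.trans (hcn _ _ hq)

lemma core (ε : ℝ) (hε : 0 < ε) : ∃ n₀ : ℕ, ∀ (V : Type) [Fintype V] [DecidableEq V]
    (H : SimpleGraph V), (∀ a b, H.Adj a b → ∃ c, H.Adj a c ∧ H.Adj b c) →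
    (∀ a b, H.Adj a b → (cn H a b).card ≤ 2) → n₀ ≤ Fintype.card V →
    ((prs H).card : ℝ) ≤ ε * (Fintype.card V : ℝ) ^ 2 := by
  classical
  have hδ := SimpleGraph.triangleRemovalBound_pos (ε := ε / 10) (by positivity)
  set δ := SimpleGraph.triangleRemovalBound (ε / 10) with hδd
  obtain ⟨n₀, hn₀⟩ := exists_nat_gt (2 / δ)
  refine ⟨n₀ + 1, fun V _ _ H hex hcn hn => ?_⟩
  by_contra hlt
  push Not at hlt
  have hfar : H.FarFromTriangleFree (ε / 10) := by
    rw [SimpleGraph.farFromTriangleFree_iff]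
    intro K _ hK hfree
    have h1 := card_prs_le H K hK hfree hex hcn
    have h2 := card_prs H
    have h3 := card_prs K
    have h4 : (prs K).card ≤ (prs H).card := card_le_card (fun p hp => by
      rw [mem_prs] at hp ⊢
      exact hK hp)
    have h5 : ((prs H).card : ℝ) ≤ 5 * ((prs H).card - (prs K).card) := by
      have : ((prs H).card : ℝ) ≤ ((5 * ((prs H).card - (prs K).card) : ℕ) : ℝ) := by
        exact_mod_cast h1
      rw [Nat.cast_mul, Nat.cast_sub h4] at this
      exact_mod_cast this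
    have h6 : ((prs H).card : ℝ) = 2 * (H.edgeFinset.card : ℝ) := by exact_mod_cast h2
    have h7 : ((prs K).card : ℝ) = 2 * (K.edgeFinset.card : ℝ) := by
      exact_mod_cast h3
    push_cast
    rw [h6, h7] at h5
    rw [h6] at hlt
    nlinarith
  have hcount := hfar.le_card_cliqueFinset
  rw [← hδd] at hcount
  have h8 : ((H.cliqueFinset 3).card : ℝ) ≤ (Fintype.card V : ℝ) ^ 2 * 2 := by
    exact_mod_cast card_triangles_le H hcn
  have hpos : (0 : ℝ) < Fintype.card V := by
    have : 0 < Fintype.card V := by omega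
    exact_mod_cast this
  have h9 : δ * (Fintype.card V : ℝ) ≤ 2 := by
    have h10 : δ * (Fintype.card V : ℝ) ^ 3 ≤ (Fintype.card V : ℝ) ^ 2 * 2 := by
      refine le_trans ?_ (hcount.trans h8)
      exact_mod_cast le_refl _
    have h11 : (Fintype.card V : ℝ) ^ 2 * (δ * (Fintype.card V : ℝ)) ≤
        (Fintype.card V : ℝ) ^ 2 * 2 := by
      calc _ = δ * (Fintype.card V : ℝ) ^ 3 := by ring
        _ ≤ _ := h10
    exact le_of_mul_le_mul_left h11 (by positivity)
  have h12 : (n₀ : ℝ) < Fintype.card V := by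
    have : n₀ < Fintype.card V := by omega
    exact_mod_cast this
  rw [div_lt_iff₀ hδ] at hn₀
  nlinarith

end Core

section Link

variable {V : Type} [Fintype V] [DecidableEq V]

/-- the graph of the link of `σ` (for a set `σ` with `d-3` vertices) -/
def linkGraph (M : Finset (Finset V)) (σ : Finset V) : SimpleGraph V where
  Adj a b := a ≠ b ∧ a ∉ σ ∧ b ∉ σ ∧ insert a (insert b σ) ∈ M
  symm := ⟨fun a b h => ⟨h.1.symm, h.2.2.1, h.2.1, by rw [Finset.insert_comm]; exact h.2.2.2⟩⟩
  loopless := ⟨fun a h => h.1 rfl⟩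

lemma link_triangle {M : Finset (Finset V)} (hM : IsComplex M) (hF : IsFlag M) {σ : Finset V}
    {a b c : V} (hab : (linkGraph M σ).Adj a b) (hac : (linkGraph M σ).Adj a c)
    (hbc : (linkGraph M σ).Adj b c) : insert c (insert a (insert b σ)) ∈ M := by
  obtain ⟨-, -, -, h1⟩ := hab
  obtain ⟨-, -, -, h2⟩ := hac
  obtain ⟨-, -, -, h3⟩ := hbc
  apply hF
  intro x hx y hy _
  have key : ({x, y} : Finset V) ⊆ insert a (insert b σ) ∨
      ({x, y} : Finset V) ⊆ insert a (insert c σ) ∨
      ({x, y} : Finset V) ⊆ insert b (insert c σ) := by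
    simp only [Finset.insert_subset_iff, Finset.singleton_subset_iff, Finset.mem_insert] at hx hy ⊢
    tauto
  rcases key with k | k | k
  · exact hM.down _ h1 _ k
  · exact hM.down _ h2 _ k
  · exact hM.down _ h3 _ k

lemma card_ins {σ : Finset V} {a b : V} (h1 : a ≠ b) (h2 : a ∉ σ) (h3 : b ∉ σ) :
    (insert a (insert b σ)).card = σ.card + 2 := by
  rw [card_insert_of_notMem, card_insert_of_notMem h3]
  simp [h1, h2]

lemma link_ex {M : Finset (Finset V)} (hM : IsComplex M) {d : ℕ} (hd : 3 ≤ d)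
    (hP : IsWeakPseudomanifold d M) {σ : Finset V} (hσ : σ.card = d - 3) (a b : V)
    (hab : (linkGraph M σ).Adj a b) :
    ∃ c, (linkGraph M σ).Adj a c ∧ (linkGraph M σ).Adj b c := by
  obtain ⟨h1, h2, h3, h4⟩ := hab
  have hc : (insert a (insert b σ)).card = d - 1 := by
    rw [card_ins h1 h2 h3]; omega
  have h5 := hP.ridge _ h4 hc
  have h6 : (M.filter (fun t => insert a (insert b σ) ⊆ t ∧ t.card = d)).Nonempty := by
    rw [← card_pos, h5]; norm_num
  obtain ⟨t, ht⟩ := h6
  rw [mem_filter] at ht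
  obtain ⟨htM, hsub, htc⟩ := ht
  have h7 : (t \ insert a (insert b σ)).card = 1 := by
    rw [card_sdiff_of_subset hsub, htc, hc]; omega
  obtain ⟨c, hcc⟩ := card_eq_one.1 h7
  have hct : c ∈ t \ insert a (insert b σ) := by rw [hcc]; exact mem_singleton_self c
  rw [mem_sdiff, mem_insert, mem_insert] at hct
  push Not at hct
  obtain ⟨hct, hca, hcb, hcs⟩ := hct
  have hat : a ∈ t := hsub (mem_insert_self _ _)
  have hbt : b ∈ t := hsub (mem_insert_of_mem (mem_insert_self _ _))
  have hst : σ ⊆ t := fun x hx => hsub (mem_insert_of_mem (mem_insert_of_mem hx))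
  refine ⟨c, ⟨fun e => hca e.symm, h2, hcs, hM.down t htM _ ?_⟩,
    ⟨fun e => hcb e.symm, h3, hcs, hM.down t htM _ ?_⟩⟩
  · exact insert_subset hat (insert_subset hct hst)
  · exact insert_subset hbt (insert_subset hct hst)

lemma link_cn {M : Finset (Finset V)} (hM : IsComplex M) (hF : IsFlag M) {d : ℕ} (hd : 3 ≤ d)
    (hP : IsWeakPseudomanifold d M) {σ : Finset V} (hσ : σ.card = d - 3) (a b : V)
    (hab : (linkGraph M σ).Adj a b) : (cn (linkGraph M σ) a b).card ≤ 2 := by
  have hab' := hab
  obtain ⟨h1, h2, h3, h4⟩ := hab'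
  have hc : (insert a (insert b σ)).card = d - 1 := by
    rw [card_ins h1 h2 h3]; omega
  rw [← hP.ridge _ h4 hc]
  refine card_le_card_of_injOn (fun c => insert c (insert a (insert b σ))) ?_ ?_
  · intro c hcc
    rw [mem_coe, mem_cn] at hcc
    have hm := link_triangle hM hF hab hcc.1 hcc.2
    have hn : c ∉ insert a (insert b σ) := by
      rw [mem_insert, mem_insert]
      push Not
      exact ⟨hcc.1.1.symm, hcc.2.1.symm, hcc.1.2.2.1⟩
    rw [mem_coe, mem_filter]
    refine ⟨hm, subset_insert _ _, ?_⟩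
    rw [card_insert_of_notMem hn, hc]
    omega
  · intro c hcc c' hcc' e
    rw [mem_coe, mem_cn] at hcc hcc'
    have hn : c ∉ insert a (insert b σ) := by
      rw [mem_insert, mem_insert]
      push Not
      exact ⟨hcc.1.1.symm, hcc.2.1.symm, hcc.1.2.2.1⟩
    have : c ∈ insert c' (insert a (insert b σ)) := by
      have e' : insert c (insert a (insert b σ)) = insert c' (insert a (insert b σ)) := e
      rw [← e']
      exact mem_insert_self _ _
    rw [mem_insert] at this
    rcases this with h | h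
    · exact h
    · exact absurd h hn

lemma faces_le {M : Finset (Finset V)} (hM : IsComplex M) {d : ℕ} (hd : 3 ≤ d) {ε : ℝ}
    (hε : 0 ≤ ε)
    (hlink : ∀ σ : Finset V, σ.card = d - 3 →
      ((prs (linkGraph M σ)).card : ℝ) ≤ ε * (Fintype.card V : ℝ) ^ 2) :
    (faceNumber M (d - 2) : ℝ) ≤ ε * (Fintype.card V : ℝ) ^ (d - 1) := by
  classical
  have hcover : M.filter (fun s => s.card = d - 2 + 1) ⊆
      (powersetCard (d - 3) (univ : Finset V)).biUnion
        (fun σ => (prs (linkGraph M σ)).image (fun p => insert p.1 (insert p.2 σ))) := by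
    intro s hs
    rw [mem_filter] at hs
    obtain ⟨hsM, hsc⟩ := hs
    have h1 : 1 < s.card := by omega
    obtain ⟨a, ha, b, hb, hab⟩ := one_lt_card.1 h1
    have hcb : b ∈ s.erase a := mem_erase.2 ⟨hab.symm, hb⟩
    refine mem_biUnion.2 ⟨(s.erase a).erase b, ?_, mem_image.2 ⟨(a, b), ?_, ?_⟩⟩
    · rw [mem_powersetCard]
      refine ⟨subset_univ _, ?_⟩
      rw [card_erase_of_mem hcb, card_erase_of_mem ha, hsc]
      omega
    · rw [mem_prs]
      refine ⟨hab, ?_, ?_, ?_⟩
      · simp
      · simp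
      · simp only
        rw [insert_erase hcb, insert_erase ha]
        exact hsM
    · simp only
      rw [insert_erase hcb, insert_erase ha]
  have h2 : (faceNumber M (d - 2) : ℝ) ≤
      ∑ σ ∈ powersetCard (d - 3) (univ : Finset V), ((prs (linkGraph M σ)).card : ℝ) := by
    have h3 : faceNumber M (d - 2) ≤
        ∑ σ ∈ powersetCard (d - 3) (univ : Finset V), (prs (linkGraph M σ)).card := by
      refine (card_le_card hcover).trans (card_biUnion_le.trans ?_)
      exact sum_le_sum fun σ _ => card_image_le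
    exact_mod_cast h3
  refine h2.trans ?_
  have h4 : ∑ σ ∈ powersetCard (d - 3) (univ : Finset V), ((prs (linkGraph M σ)).card : ℝ) ≤
      ∑ _σ ∈ powersetCard (d - 3) (univ : Finset V), ε * (Fintype.card V : ℝ) ^ 2 := by
    refine sum_le_sum fun σ hσ => hlink σ ?_
    rw [mem_powersetCard] at hσ
    exact hσ.2
  refine h4.trans ?_
  rw [sum_const, card_powersetCard, card_univ, nsmul_eq_mul]
  have h5 : ((Fintype.card V).choose (d - 3) : ℝ) ≤ (Fintype.card V : ℝ) ^ (d - 3) := by
    exact_mod_cast Nat.choose_le_pow (Fintype.card V) (d - 3)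
  calc ((Fintype.card V).choose (d - 3) : ℝ) * (ε * (Fintype.card V : ℝ) ^ 2)
      ≤ (Fintype.card V : ℝ) ^ (d - 3) * (ε * (Fintype.card V : ℝ) ^ 2) := by
        gcongr
    _ = ε * ((Fintype.card V : ℝ) ^ (d - 3) * (Fintype.card V : ℝ) ^ 2) := by ring
    _ = ε * (Fintype.card V : ℝ) ^ (d - 1) := by
        rw [← pow_add]
        congr 2
        omega

end Link

/-- **Ridge numbers**: for every `d ≥ 3` the number of ridges (faces with `d-1` vertices) of a flag
weak `(d-1)`-pseudomanifold on `n` vertices is `o(n^(d-1))`. For `d = 4` this is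
`f_2(M) = o(n^3)`, i.e. the positive answer to Q1 for `r = 2`. -/
theorem result (d : ℕ) (hd : 3 ≤ d) (β : ℝ) (hβ : 0 < β) :
    ∃ n₀ : ℕ, ∀ (V : Type) [Fintype V] [DecidableEq V] (M : Finset (Finset V)),
      IsComplex M → IsFlag M → IsWeakPseudomanifold d M → n₀ ≤ Fintype.card V →
        (faceNumber M (d - 2) : ℝ) ≤ β * (Fintype.card V : ℝ) ^ (d - 1) := by
  obtain ⟨n₀, hn₀⟩ := core β hβ
  refine ⟨n₀, fun V _ _ M hM hF hP hn => faces_le hM hd hβ.le fun σ hσ => ?_⟩
  exact hn₀ V (linkGraph M σ) (link_ex hM hd hP hσ) (link_cn hM hF hd hP hσ) hn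

end Pool.Agent.Results.MP_a04191_co.RidgeNumbers
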